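import Pool.Agent.Helper96.KS.Parts

/-!
# Part C1: elementary identities and one-step moments
-/

set_option autoImplicit false

open Finset

namespace KS.C1_helper53

open KS KS.Inst
open scoped Classical

variable {K Δ : ℕ} {I : Inst K}

theorem Npos (h : I.Valid Δ) : (0 : ℝ) < I.N := by exact_mod_cast h.npos

theorem Kpos (h : I.Valid Δ) : (2 : ℝ) ≤ K := by exact_mod_cast h.hK

theorem card_Hk (h : I.Valid Δ) (k : Fin K) : ((I.Hk k).card : ℝ) = I.N / K := by
  have h1 : (K : ℝ) * (I.Hk k).card = I.N := by exact_mod_cast h.bal k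
  have hK := Kpos h
  rw [eq_div_iff (by linarith)]
  linarith

theorem fiber (F : I.H → ℝ) : ∑ v, F v = ∑ k, ∑ v ∈ I.Hk k, F v := by
  unfold Hk
  exact (sum_fiberwise univ I.c F).symm

theorem mem_Hk {k : Fin K} {v : I.H} (hv : v ∈ I.Hk k) : I.c v = k := by
  unfold Hk at hv
  exact (mem_filter.1 hv).2

theorem sum_c (h : I.Valid Δ) (f : Fin K → ℝ) : ∑ v : I.H, f (I.c v) = I.N / K * ∑ k, f k := by
  rw [fiber, mul_sum]
  refine sum_congr rfl fun k _ => ?_
  rw [sum_congr rfl (fun v hv => by rw [mem_Hk hv] : ∀ v ∈ I.Hk k, f (I.c v) = f k), sum_const,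
    nsmul_eq_mul, card_Hk h]

theorem sum_log (h : I.Valid Δ) (k : Fin K) :
    ∑ v ∈ I.Hk k, Real.log (I.dg v) = I.N / K * I.muk k := by
  unfold muk
  have h1 := Npos h
  have h2 := Kpos h
  have h3 : (K : ℝ) ≠ 0 := by linarith
  field_simp

theorem sum_logf (h : I.Valid Δ) (f : Fin K → ℝ) :
    ∑ v : I.H, Real.log (I.dg v) * f (I.c v) = I.N / K * ∑ k, I.muk k * f k := by
  rw [fiber, mul_sum]
  refine sum_congr rfl fun k _ => ?_
  rw [sum_congr rfl (fun v hv => by rw [mem_Hk hv] :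
    ∀ v ∈ I.Hk k, Real.log (I.dg v) * f (I.c v) = Real.log (I.dg v) * f k), ← sum_mul, sum_log h]
  ring

theorem q_sum (k : Fin K) (F : I.H → ℝ) :
    ∑ v, I.q k v * F v = ∑ l, I.Msw k l * ((K : ℝ) / I.N * ∑ v ∈ I.Hk l, F v) := by
  rw [fiber]
  refine sum_congr rfl fun l _ => ?_
  rw [mul_sum, mul_sum]
  refine sum_congr rfl fun v hv => ?_
  unfold q
  rw [mem_Hk hv]
  ring

theorem msw_sum (k : Fin K) (a : Fin K → ℝ) :
    ∑ l, I.Msw k l * a l = (1 - I.al) * a k + I.al / K * ∑ l, a l := by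
  unfold Msw
  simp only [add_mul, sum_add_distrib, mul_ite, mul_one, mul_zero, ite_mul, zero_mul,
    sum_ite_eq, mem_univ, if_true, mul_sum]

theorem sum_muk (h : I.Valid Δ) : ∑ k, I.muk k = K * I.mu := by
  have h1 := Npos h
  have h2 := Kpos h
  have h3 : (K : ℝ) ≠ 0 := by linarith
  have h4 := sum_logf h (fun _ => 1)
  simp only [mul_one] at h4
  unfold mu
  rw [h4]
  field_simp

theorem al_le (h : I.Valid Δ) : I.al ≤ 1 := by
  unfold al
  rw [div_le_one (Npos h)]
  exact_mod_cast h.al1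

theorem log_bd (h : I.Valid Δ) (v : I.H) :
    Real.log 2 ≤ Real.log (I.dg v) ∧ Real.log (I.dg v) ≤ Real.log Δ := by
  have h1 := h.d3 v.1
  have h2 := h.dΔ v.1
  have h3 : 2 ≤ I.dg v := by unfold dg; omega
  have h4 : I.dg v ≤ Δ := by unfold dg; omega
  have h5 : (2 : ℝ) ≤ I.dg v := by exact_mod_cast h3
  have h6 : (I.dg v : ℝ) ≤ Δ := by exact_mod_cast h4
  exact ⟨Real.log_le_log (by norm_num) h5, Real.log_le_log (by linarith) h6⟩

theorem mu_bd (h : I.Valid Δ) : Real.log 2 ≤ I.mu ∧ I.mu ≤ Real.log Δ := by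
  have h1 := Npos h
  have h2 : ((univ : Finset I.H).card : ℝ) = I.N := by
    unfold Inst.N
    rw [card_univ]
  have h3 : ∀ a : ℝ, a = (1 / (I.N : ℝ)) * ∑ _x : I.H, a := by
    intro a
    rw [sum_const, nsmul_eq_mul, h2]
    field_simp
  constructor
  · rw [h3 (Real.log 2)]
    unfold mu
    exact mul_le_mul_of_nonneg_left (sum_le_sum fun x _ => (log_bd h x).1) (by positivity)
  · rw [h3 (Real.log Δ)]
    unfold mu
    exact mul_le_mul_of_nonneg_left (sum_le_sum fun x _ => (log_bd h x).2) (by positivity)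

theorem nu2_eq (h : I.Valid Δ) (ha : 0 < I.al) :
    I.nu2 = I.sig2 + 2 * (1 - I.al) / I.al * ((1 / (K : ℝ)) * ∑ k, (I.muk k - I.mu) ^ 2) := by
  have h2 := Kpos h
  have h3 : (K : ℝ) ≠ 0 := by linarith
  have h4 := sum_muk h
  have e1 : ∑ k : Fin K, ∑ l : Fin K, (if k ≠ l then I.muk k * I.muk l else 0) =
      (∑ k, I.muk k) ^ 2 - ∑ k, I.muk k ^ 2 := by
    rw [sq (∑ k, I.muk k), sum_mul_sum, ← sum_sub_distrib]
    refine sum_congr rfl fun k _ => ?_
    have : ∀ l, (if k ≠ l then I.muk k * I.muk l else 0) =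
        I.muk k * I.muk l - if k = l then I.muk k * I.muk l else 0 := by
      intro l
      by_cases hkl : k = l <;> simp [hkl]
    simp only [this, sum_sub_distrib, sum_ite_eq, mem_univ, if_true]
    ring
  have e2 : ∑ k, (I.muk k - I.mu) ^ 2 = ∑ k, I.muk k ^ 2 - K * I.mu ^ 2 := by
    have : ∀ k, (I.muk k - I.mu) ^ 2 = I.muk k ^ 2 - 2 * I.mu * I.muk k + I.mu ^ 2 := by
      intro k
      ring
    simp only [this, sum_add_distrib, sum_sub_distrib, ← mul_sum, h4, sum_const, card_univ,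
      Fintype.card_fin, nsmul_eq_mul]
    ring
  unfold nu2
  rw [e1, e2, h4]
  field_simp
  ring

theorem main (hQ : S_Q) : S_C1 := by
  intro K Δ I h ha
  obtain ⟨q1, q2, q3, q4, q5, q6, q7, q8⟩ := hQ K Δ I h
  have hN := Npos h
  have hK := Kpos h
  have hK0 : (K : ℝ) ≠ 0 := by linarith
  have hKp : (0 : ℝ) < K := by linarith
  have hal := al_le h
  have hnu := nu2_eq h ha
  set α := I.al with hα
  set G : ℝ := (1 / (K : ℝ)) * ∑ k, (I.muk k - I.mu) ^ 2 with hG
  have hG0 : 0 ≤ G := mul_nonneg (by positivity) (sum_nonneg fun k _ => sq_nonneg _)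
  have hβ0 : 0 ≤ (1 - α) / α := div_nonneg (by linarith) ha.le
  set β : ℝ := (1 - α) / α with hβ
  have hβα : α * β = 1 - α := by rw [hβ]; field_simp
  have hβ1 : β ≤ 1 / α := div_le_div_of_nonneg_right (by linarith) ha.le
  have hnu' : I.nu2 = I.sig2 + 2 * β * G := by
    rw [hnu, hβ]
    ring
  have hsig : I.sig2 ≤ I.nu2 := by
    rw [hnu']
    have : 0 ≤ 2 * β * G := by positivity
    linarith
  have hsig0 : 0 ≤ I.sig2 := by
    unfold sig2
    exact mul_nonneg (by positivity) (sum_nonneg fun x _ => sq_nonneg _)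
  have hnu0 : 0 ≤ I.nu2 := hsig0.trans hsig
  -- the corrector
  have hpsi : ∀ k, psi I k = β * (I.muk k - I.mu) := fun k => rfl
  have hgsum : ∑ k, (I.muk k - I.mu) = 0 := by
    rw [sum_sub_distrib, sum_muk h, sum_const, card_univ, Fintype.card_fin, nsmul_eq_mul]
    ring
  have hpsum : ∑ k, psi I k = 0 := by
    simp only [hpsi, ← mul_sum, hgsum, mul_zero]
  have hpsq : ∑ k, psi I k ^ 2 = β ^ 2 * (K * G) := by
    simp only [hpsi, mul_pow, ← mul_sum]
    rw [hG]
    field_simp
  have hpk : ∀ k, psi I k ^ 2 ≤ β * K / 2 * (2 * β * G) := by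
    intro k
    have h1 : psi I k ^ 2 ≤ ∑ k, psi I k ^ 2 :=
      single_le_sum (f := fun k => psi I k ^ 2) (fun k _ => sq_nonneg _) (mem_univ k)
    rw [hpsq] at h1
    refine h1.trans (le_of_eq ?_)
    ring
  have h2bG : 2 * β * G ≤ I.nu2 := by
    rw [hnu']
    linarith
  have hpk' : ∀ k, psi I k ^ 2 ≤ K * I.nu2 / (2 * α) := by
    intro k
    refine (hpk k).trans ?_
    calc β * K / 2 * (2 * β * G) ≤ β * K / 2 * I.nu2 :=
          mul_le_mul_of_nonneg_left h2bG (by positivity)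
      _ = β * (K / 2 * I.nu2) := by ring
      _ ≤ 1 / α * (K / 2 * I.nu2) := mul_le_mul_of_nonneg_right hβ1 (by positivity)
      _ = K * I.nu2 / (2 * α) := by field_simp
  -- the mean
  have hmean : ∀ k, ∑ v, I.q k v * (Real.log (I.dg v) - I.mu) = (1 - α) * (I.muk k - I.mu) := by
    intro k
    rw [q_sum]
    have h1 : ∀ l, (K : ℝ) / I.N * ∑ v ∈ I.Hk l, (Real.log (I.dg v) - I.mu) = I.muk l - I.mu := by
      intro l
      rw [sum_sub_distrib, sum_log h, sum_const, nsmul_eq_mul, card_Hk h]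
      field_simp
    simp only [h1]
    rw [msw_sum, hgsum, mul_zero, add_zero]
  have hmpsi : ∀ k, ∑ v, I.q k v * psi I (I.c v) = (1 - α) * psi I k := by
    intro k
    rw [q8 k (psi I), msw_sum, hpsum, mul_zero, add_zero]
  have hzero : ∀ k, ∑ v, I.q k v * (Real.log (I.dg v) - I.mu + psi I (I.c v) - psi I k) = 0 := by
    intro k
    have h1 : ∀ v, I.q k v * (Real.log (I.dg v) - I.mu + psi I (I.c v) - psi I k) =
        I.q k v * (Real.log (I.dg v) - I.mu) + I.q k v * psi I (I.c v) - I.q k v * psi I k := by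
      intro v
      ring
    simp only [h1, sum_add_distrib, sum_sub_distrib, ← sum_mul]
    rw [hmean, hmpsi, q7, hpsi]
    have : (1 - α) * (I.muk k - I.mu) = α * (β * (I.muk k - I.mu)) := by
      rw [← mul_assoc, hβα]
    rw [this]
    ring
  -- second moments
  have hxi2 : ∀ k, ∑ v, I.q k v * (Real.log (I.dg v) - I.mu) ^ 2 ≤ K * I.sig2 := by
    intro k
    calc _ ≤ ∑ v, (K : ℝ) / I.N * (Real.log (I.dg v) - I.mu) ^ 2 :=
          sum_le_sum fun v _ => mul_le_mul_of_nonneg_right (q6 k v) (sq_nonneg _)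
      _ = K * I.sig2 := by
          rw [← mul_sum]
          unfold sig2
          ring
  have hps2 : ∀ k, ∑ v, I.q k v * (psi I (I.c v) - psi I k) ^ 2 =
      α / K * (∑ l, psi I l ^ 2 + K * psi I k ^ 2) := by
    intro k
    rw [q8 k (fun l => (psi I l - psi I k) ^ 2), msw_sum]
    have h1 : ∀ l, (psi I l - psi I k) ^ 2 = psi I l ^ 2 - 2 * psi I k * psi I l + psi I k ^ 2 := by
      intro l
      ring
    simp only [h1, sum_add_distrib, sum_sub_distrib, ← mul_sum, hpsum, sum_const, card_univ,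
      Fintype.card_fin, nsmul_eq_mul]
    ring
  have hαβ : α * (β ^ 2 * (K * G)) = (1 - α) * K / 2 * (2 * β * G) := by
    have : α * (β ^ 2 * (K * G)) = (α * β) * (β * (K * G)) := by ring
    rw [this, hβα]
    ring
  have hps2' : ∀ k, ∑ v, I.q k v * (psi I (I.c v) - psi I k) ^ 2 ≤ K * (2 * β * G) := by
    intro k
    rw [hps2]
    have h1 : psi I k ^ 2 ≤ β ^ 2 * (K * G) := by
      have := hpk k
      refine this.trans (le_of_eq ?_)
      ring
    rw [hpsq]
    have h0 : 0 ≤ 2 * β * G := by positivity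
    calc α / K * (β ^ 2 * (K * G) + K * psi I k ^ 2)
        ≤ α / K * (β ^ 2 * (K * G) + K * (β ^ 2 * (K * G))) := by
          refine mul_le_mul_of_nonneg_left ?_ (by positivity)
          have := mul_le_mul_of_nonneg_left h1 hKp.le
          linarith
      _ = (1 + K) / K * (α * (β ^ 2 * (K * G))) := by ring
      _ = (1 - α) * ((1 + K) / 2 * (2 * β * G)) := by
          rw [hαβ]
          field_simp
      _ ≤ 1 * (K * (2 * β * G)) := by
          refine mul_le_mul (by linarith) ?_ (by positivity) (by norm_num)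
          exact mul_le_mul_of_nonneg_right (by linarith) h0
      _ = _ := one_mul _
  have hsecond : ∀ k, ∑ v, I.q k v *
      (Real.log (I.dg v) - I.mu + psi I (I.c v) - psi I k) ^ 2 ≤ 6 * K * I.nu2 := by
    intro k
    calc _ ≤ ∑ v, (2 * (I.q k v * (Real.log (I.dg v) - I.mu) ^ 2) +
          2 * (I.q k v * (psi I (I.c v) - psi I k) ^ 2)) := by
          refine sum_le_sum fun v _ => ?_
          have h1 : (Real.log (I.dg v) - I.mu + psi I (I.c v) - psi I k) ^ 2 ≤
              2 * (Real.log (I.dg v) - I.mu) ^ 2 + 2 * (psi I (I.c v) - psi I k) ^ 2 := by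
            nlinarith [sq_nonneg ((Real.log (I.dg v) - I.mu) - (psi I (I.c v) - psi I k))]
          have := mul_le_mul_of_nonneg_left h1 (q5 k v)
          linarith
      _ = 2 * ∑ v, I.q k v * (Real.log (I.dg v) - I.mu) ^ 2 +
          2 * ∑ v, I.q k v * (psi I (I.c v) - psi I k) ^ 2 := by
          rw [sum_add_distrib, mul_sum, mul_sum]
      _ ≤ 2 * (K * I.sig2) + 2 * (K * (2 * β * G)) := by
          linarith [hxi2 k, hps2' k]
      _ = 2 * K * I.nu2 := by rw [hnu']; ring
      _ ≤ 6 * K * I.nu2 := by nlinarith [mul_nonneg hKp.le hnu0]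
  -- the average
  have havg : (1 / (K : ℝ)) * ∑ k, ∑ v, I.q k v *
      (Real.log (I.dg v) - I.mu + psi I (I.c v) - psi I k) ^ 2 = I.nu2 := by
    have h1 : ∀ k, ∑ v, I.q k v * (Real.log (I.dg v) - I.mu + psi I (I.c v) - psi I k) ^ 2 =
        ∑ v, I.q k v * (Real.log (I.dg v) - I.mu + psi I (I.c v)) ^ 2 - psi I k ^ 2 := by
      intro k
      have h2 : ∀ v, I.q k v * (Real.log (I.dg v) - I.mu + psi I (I.c v) - psi I k) ^ 2 =
          I.q k v * (Real.log (I.dg v) - I.mu + psi I (I.c v)) ^ 2 -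
          2 * psi I k * (I.q k v * (Real.log (I.dg v) - I.mu + psi I (I.c v) - psi I k)) -
          psi I k ^ 2 * I.q k v := by
        intro v
        ring
      simp only [h2, sum_sub_distrib, ← mul_sum]
      rw [hzero, q7]
      ring
    have h3 : ∀ v, ∑ k, I.q k v = (K : ℝ) / I.N := by
      intro v
      unfold q
      rw [← mul_sum]
      have : ∑ k, I.Msw k (I.c v) = 1 := by
        rw [← q4 (I.c v)]
        exact sum_congr rfl fun k _ => q3 _ _
      rw [this, mul_one]
    have h4 : ∑ k, ∑ v, I.q k v * (Real.log (I.dg v) - I.mu + psi I (I.c v)) ^ 2 =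
        (K : ℝ) / I.N * ∑ v, (Real.log (I.dg v) - I.mu + psi I (I.c v)) ^ 2 := by
      rw [sum_comm, mul_sum]
      refine sum_congr rfl fun v _ => ?_
      rw [← sum_mul, h3]
    have h5 : ∑ v, (Real.log (I.dg v) - I.mu + psi I (I.c v)) ^ 2 =
        I.N * I.sig2 + 2 * (I.N / K * ∑ k, (I.muk k - I.mu) * psi I k) +
        I.N / K * ∑ k, psi I k ^ 2 := by
      have h6 : ∀ v, (Real.log (I.dg v) - I.mu + psi I (I.c v)) ^ 2 =
          (Real.log (I.dg v) - I.mu) ^ 2 + 2 * (Real.log (I.dg v) * psi I (I.c v)) -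
          2 * I.mu * psi I (I.c v) + psi I (I.c v) ^ 2 := by
        intro v
        ring
      simp only [h6, sum_add_distrib, sum_sub_distrib, ← mul_sum]
      rw [sum_logf h, sum_c h (psi I), sum_c h (fun k => psi I k ^ 2), hpsum]
      have h7 : ∑ v, (Real.log (I.dg v) - I.mu) ^ 2 = I.N * I.sig2 := by
        unfold sig2
        field_simp
      have h8 : ∑ k, (I.muk k - I.mu) * psi I k = ∑ k, I.muk k * psi I k := by
        have : ∀ k, (I.muk k - I.mu) * psi I k = I.muk k * psi I k - I.mu * psi I k := by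
          intro k
          ring
        simp only [this, sum_sub_distrib, ← mul_sum, hpsum]
        ring
      rw [h7, h8]
      ring
    have h9 : ∑ k, (I.muk k - I.mu) * psi I k = β * (K * G) := by
      have : ∀ k, (I.muk k - I.mu) * psi I k = β * (I.muk k - I.mu) ^ 2 := by
        intro k
        rw [hpsi]
        ring
      simp only [this, ← mul_sum]
      rw [hG]
      field_simp
    simp only [h1, sum_sub_distrib]
    rw [h4, h5, h9, hnu']
    field_simp
    ring
  -- fourth moments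
  have hxi : ∀ v, (Real.log (I.dg v) - I.mu) ^ 2 ≤ Real.log Δ ^ 2 := by
    intro v
    have h1 := log_bd h v
    have h2 := mu_bd h
    have h3 : 0 < Real.log 2 := Real.log_pos (by norm_num)
    rw [sq_le_sq]
    rw [abs_of_nonneg (by linarith : 0 ≤ Real.log Δ), abs_le]
    constructor <;> linarith
  refine ⟨hnu, hsig, (mu_bd h).1, (mu_bd h).2, hpk', hzero, hsecond, havg, ?_⟩
  intro s0 hs0 hs k
  have hnus : s0 ≤ I.nu2 := hs.trans hsig
  have hA : ∑ v, I.q k v * (Real.log (I.dg v) - I.mu) ^ 4 ≤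
      Real.log Δ ^ 2 * K / s0 * I.nu2 ^ 2 := by
    calc _ ≤ ∑ v, Real.log Δ ^ 2 * (I.q k v * (Real.log (I.dg v) - I.mu) ^ 2) := by
          refine sum_le_sum fun v _ => ?_
          have h1 : (Real.log (I.dg v) - I.mu) ^ 4 ≤
              Real.log Δ ^ 2 * (Real.log (I.dg v) - I.mu) ^ 2 := by
            have := mul_le_mul_of_nonneg_right (hxi v) (sq_nonneg (Real.log (I.dg v) - I.mu))
            refine le_trans (le_of_eq ?_) this
            ring
          have := mul_le_mul_of_nonneg_left h1 (q5 k v)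
          refine this.trans (le_of_eq ?_)
          ring
      _ ≤ Real.log Δ ^ 2 * (K * I.sig2) := by
          rw [← mul_sum]
          exact mul_le_mul_of_nonneg_left (hxi2 k) (sq_nonneg _)
      _ ≤ Real.log Δ ^ 2 * (K * (I.nu2 ^ 2 / s0)) := by
          refine mul_le_mul_of_nonneg_left (mul_le_mul_of_nonneg_left ?_ hKp.le) (sq_nonneg _)
          rw [le_div_iff₀ hs0, sq]
          exact mul_le_mul hsig hnus hs0.le hnu0
      _ = _ := by ring
  have hB : ∑ v, I.q k v * (psi I (I.c v) - psi I k) ^ 4 ≤ 4 * (K : ℝ) ^ 2 / α * I.nu2 ^ 2 := by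
    rw [q8 k (fun l => (psi I l - psi I k) ^ 4), msw_sum]
    have h1 : ∀ l, (psi I l - psi I k) ^ 4 ≤ (2 * K * I.nu2 / α) ^ 2 := by
      intro l
      have h2 : (psi I l - psi I k) ^ 2 ≤ 2 * K * I.nu2 / α := by
        have h3 : (psi I l - psi I k) ^ 2 ≤ 2 * psi I l ^ 2 + 2 * psi I k ^ 2 := by
          nlinarith [sq_nonneg (psi I l + psi I k)]
        have h4 : 2 * (K * I.nu2 / (2 * α)) + 2 * (K * I.nu2 / (2 * α)) = 2 * K * I.nu2 / α := by
          field_simp
          ring
        linarith [hpk' l, hpk' k]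
      have h5 : (psi I l - psi I k) ^ 4 = ((psi I l - psi I k) ^ 2) ^ 2 := by ring
      rw [h5]
      exact pow_le_pow_left₀ (sq_nonneg _) h2 2
    rw [sub_self, zero_pow (by norm_num), mul_zero, zero_add]
    calc α / K * ∑ l, (psi I l - psi I k) ^ 4 ≤ α / K * ∑ _l : Fin K, (2 * K * I.nu2 / α) ^ 2 :=
          mul_le_mul_of_nonneg_left (sum_le_sum fun l _ => h1 l) (by positivity)
      _ = 4 * (K : ℝ) ^ 2 / α * I.nu2 ^ 2 := by
          rw [sum_const, card_univ, Fintype.card_fin, nsmul_eq_mul]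
          field_simp
          ring
  calc _ ≤ ∑ v, (8 * (I.q k v * (Real.log (I.dg v) - I.mu) ^ 4) +
        8 * (I.q k v * (psi I (I.c v) - psi I k) ^ 4)) := by
        refine sum_le_sum fun v _ => ?_
        have h1 : ∀ x y : ℝ, (x + y) ^ 4 ≤ 8 * x ^ 4 + 8 * y ^ 4 := by
          intro x y
          nlinarith [sq_nonneg (x ^ 2 - y ^ 2), sq_nonneg (x - y), sq_nonneg (x + y),
            mul_nonneg (sq_nonneg (x - y)) (sq_nonneg (x + y)), sq_nonneg ((x - y) ^ 2),
            mul_nonneg (sq_nonneg (x - y)) (add_nonneg (sq_nonneg x) (sq_nonneg y))]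
        have h2 := h1 (Real.log (I.dg v) - I.mu) (psi I (I.c v) - psi I k)
        have h3 : Real.log (I.dg v) - I.mu + psi I (I.c v) - psi I k =
            (Real.log (I.dg v) - I.mu) + (psi I (I.c v) - psi I k) := by ring
        rw [h3]
        have := mul_le_mul_of_nonneg_left h2 (q5 k v)
        linarith
    _ = 8 * ∑ v, I.q k v * (Real.log (I.dg v) - I.mu) ^ 4 +
        8 * ∑ v, I.q k v * (psi I (I.c v) - psi I k) ^ 4 := by
        rw [sum_add_distrib, mul_sum, mul_sum]
    _ ≤ 8 * (Real.log Δ ^ 2 * K / s0 * I.nu2 ^ 2) + 8 * (4 * (K : ℝ) ^ 2 / α * I.nu2 ^ 2) := by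
        linarith
    _ = _ := by ring

end KS.C1_helper53
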