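import Pool.Agent.Helper96.KS.Parts

/-!
# Part ID: two independent ideal chains
-/

set_option autoImplicit false

open Finset

namespace KS.ID_helper53

open KS KS.Inst
open scoped Classical

variable {K Δ : ℕ} {I : Inst K}

theorem msw_sum (k : Fin K) (a : Fin K → ℝ) :
    ∑ l, I.Msw k l * a l = (1 - I.al) * a k + I.al / K * ∑ l, a l := by
  unfold Msw
  simp only [add_mul, sum_add_distrib, mul_ite, mul_one, mul_zero, ite_mul, zero_mul,
    sum_ite_eq, mem_univ, if_true, mul_sum]

/-- the chain as a finite average -/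
theorem repr (hQ : (∀ k v, 0 ≤ I.q k v) ∧ ∀ k, ∑ v, I.q k v = 1) (n : ℕ) (k : Fin K) (x : ℝ) :
    ∃ (ι : Type) (_ : Fintype ι) (w : ι → ℝ) (c : ι → Fin K) (y : ι → ℝ),
      (∀ i, 0 ≤ w i) ∧ ∑ i, w i = 1 ∧ ∀ f : Fin K → ℝ → ℝ, I.Tn n f k x = ∑ i, w i * f (c i) (y i) := by
  induction n with
  | zero =>
    refine ⟨Unit, inferInstance, fun _ => 1, fun _ => k, fun _ => x, by simp, by simp, ?_⟩
    intro f
    simp [Tn]
  | succ n ih =>
    obtain ⟨ι, _, w, c, y, h1, h2, h3⟩ := ih
    refine ⟨ι × I.H, inferInstance, fun i => w i.1 * I.q (c i.1) i.2, fun i => I.c i.2,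
      fun i => y i.1 + Real.log (I.dg i.2), fun i => mul_nonneg (h1 _) (hQ.1 _ _), ?_, ?_⟩
    · rw [Fintype.sum_prod_type]
      simp only [← mul_sum, hQ.2, mul_one]
      exact h2
    · intro f
      have e1 : I.Tn (n + 1) f = I.Tn n (I.T f) := by
        unfold Tn
        rw [Function.iterate_succ, Function.comp_apply]
      rw [e1, h3, Fintype.sum_prod_type]
      refine sum_congr rfl fun i _ => ?_
      unfold T
      rw [mul_sum]
      exact sum_congr rfl fun v _ => by ring

/-- the law of the community -/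
theorem tn_c (hK : (K : ℝ) ≠ 0) (q8 : ∀ k (f : Fin K → ℝ), ∑ v, I.q k v * f (I.c v) =
    ∑ l, I.Msw k l * f l) (n : ℕ) : ∀ (f : Fin K → ℝ) (k : Fin K) (x : ℝ),
    I.Tn n (fun k _ => f k) k x =
      (1 - I.al) ^ n * f k + (1 - (1 - I.al) ^ n) / K * ∑ l, f l := by
  induction n with
  | zero =>
    intro f k x
    simp [Tn]
  | succ n ih =>
    intro f k x
    have e1 : I.Tn (n + 1) (fun k _ => f k) =
        I.Tn n (fun k _ => (1 - I.al) * f k + I.al / K * ∑ l, f l) := by
      unfold Tn
      rw [Function.iterate_succ, Function.comp_apply]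
      congr 1
      funext k y
      unfold T
      rw [q8 k f, msw_sum]
    rw [e1, ih]
    simp only [sum_add_distrib, ← mul_sum, sum_const, card_univ, Fintype.card_fin, nsmul_eq_mul]
    rw [pow_succ]
    field_simp
    ring

theorem main (hQ : S_Q) : S_ID := by
  intro K Δ I h ha n1 n2 a a1 a2 b k1 k2 hab
  obtain ⟨q1, q2, q3, q4, q5, q6, q7, q8⟩ := hQ K Δ I h
  have hK : (2 : ℝ) ≤ K := by exact_mod_cast h.hK
  have hK0 : (K : ℝ) ≠ 0 := by linarith
  have hKp : (0 : ℝ) < K := by linarith
  have hN : (0 : ℝ) < I.N := by exact_mod_cast h.npos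
  have hal : I.al ≤ 1 := by
    unfold al
    rw [div_le_one hN]
    exact_mod_cast h.al1
  obtain ⟨ι, _, w, c, y, w0, w1, hw⟩ := repr ⟨q5, q7⟩ n1 k1 0
  obtain ⟨κ, _, w', c', y', w0', w1', hw'⟩ := repr ⟨q5, q7⟩ n2 k2 0
  -- the ideal quantity as a double sum
  have hid : K * I.ideal n1 n2 a b k1 k2 = ∑ i, ∑ j, w i * w' j *
      (if a ≤ y i + y' j ∧ y i ≤ b ∧ y' j ≤ b then K * I.Msw (c i) (c' j) else 0) := by
    unfold ideal
    simp only [hw, hw']
    rw [mul_sum]
    refine sum_congr rfl fun i _ => ?_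
    rw [mul_sum, mul_sum]
    refine sum_congr rfl fun j _ => ?_
    split_ifs <;> ring
  have hone1 : ∀ A : ι → ℝ, ∑ i, ∑ j, w i * w' j * A i = ∑ i, w i * A i := by
    intro A
    refine sum_congr rfl fun i _ => ?_
    have : ∀ j, w i * w' j * A i = (w i * A i) * w' j := fun j => by ring
    simp only [this, ← mul_sum, w1', mul_one]
  have hone2 : ∀ A : κ → ℝ, ∑ i, ∑ j, w i * w' j * A j = ∑ j, w' j * A j := by
    intro A
    rw [sum_comm]
    refine sum_congr rfl fun j _ => ?_
    have : ∀ i, w i * w' j * A j = (w' j * A j) * w i := fun i => by ring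
    simp only [this, ← mul_sum, w1, mul_one]
  have hww : ∀ i j, 0 ≤ w i * w' j := fun i j => mul_nonneg (w0 i) (w0' j)
  constructor
  · -- the mean of the kernel
    have hmean : 1 - (1 - I.al) ^ (n1 + n2 + 1) ≤
        ∑ i, ∑ j, w i * w' j * (K * I.Msw (c i) (c' j)) := by
      have e2 : ∀ k, ∑ j, w' j * I.Msw k (c' j) =
          (1 - I.al) ^ n2 * I.Msw k k2 + (1 - (1 - I.al) ^ n2) / K := by
        intro k
        have := tn_c hK0 q8 n2 (fun l => I.Msw k l) k2 0
        rw [hw', q4 k, mul_one] at this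
        exact this
      have e1 : ∑ i, ∑ j, w i * w' j * (K * I.Msw (c i) (c' j)) =
          K * ∑ i, w i * ((1 - I.al) ^ n2 * I.Msw (c i) k2 + (1 - (1 - I.al) ^ n2) / K) := by
        rw [mul_sum]
        refine sum_congr rfl fun i _ => ?_
        rw [← e2, mul_sum, mul_sum]
        exact sum_congr rfl fun j _ => by ring
      have e3 := tn_c hK0 q8 n1
        (fun k => (1 - I.al) ^ n2 * I.Msw k k2 + (1 - (1 - I.al) ^ n2) / K) k1 0
      have e4 : ∑ k, I.Msw k k2 = 1 := by
        rw [← q4 k2]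
        exact sum_congr rfl fun k _ => q3 _ _
      rw [hw] at e3
      simp only [sum_add_distrib, ← mul_sum, e4, sum_const, card_univ, Fintype.card_fin,
        nsmul_eq_mul] at e3
      rw [e1, e3]
      have e5 : I.al / K ≤ I.Msw k1 k2 := by
        unfold Msw
        have : 0 ≤ (1 - I.al) * (if k1 = k2 then (1 : ℝ) else 0) :=
          mul_nonneg (by linarith) (by split_ifs <;> norm_num)
        linarith
      have e6 : 0 ≤ (1 - I.al) ^ n1 := pow_nonneg (by linarith) _
      have e7 : 0 ≤ (1 - I.al) ^ n2 := pow_nonneg (by linarith) _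
      have e8 : (1 - I.al) ^ n1 * ((1 - I.al) ^ n2 * (I.al / K)) ≤
          (1 - I.al) ^ n1 * ((1 - I.al) ^ n2 * I.Msw k1 k2) :=
        mul_le_mul_of_nonneg_left (mul_le_mul_of_nonneg_left e5 e7) e6
      have e9 : 1 - (1 - I.al) ^ (n1 + n2 + 1) = K * ((1 - I.al) ^ n1 *
          ((1 - I.al) ^ n2 * (I.al / K)) + (1 - I.al) ^ n1 * ((1 - (1 - I.al) ^ n2) / K) +
          (1 - (1 - I.al) ^ n1) / K) := by
        rw [pow_add, pow_add, pow_one]
        field_simp
        ring
      rw [e9]
      refine mul_le_mul_of_nonneg_left ?_ hKp.le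
      have e10 : (1 - (1 - I.al) ^ n1) / K * ((1 - I.al) ^ n2 * 1 +
          K * ((1 - (1 - I.al) ^ n2) / K)) = (1 - (1 - I.al) ^ n1) / K := by
        field_simp
        ring
      rw [e10]
      linarith
    rw [hid, hw, hw', hw, hw', ← hone1, ← hone1, ← hone2, ← hone2]
    have e1 : ∀ (A : ι → κ → ℝ), K * ∑ i, ∑ j, w i * w' j * A i j =
        ∑ i, ∑ j, w i * w' j * (K * A i j) := by
      intro A
      rw [mul_sum]
      refine sum_congr rfl fun i _ => ?_
      rw [mul_sum]
      exact sum_congr rfl fun j _ => by ring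
    rw [e1 (fun i _ => if y i < a1 then (1 : ℝ) else 0),
      e1 (fun _ j => if y' j < a2 then (1 : ℝ) else 0),
      e1 (fun i _ => if b < y i then (1 : ℝ) else 0),
      e1 (fun _ j => if b < y' j then (1 : ℝ) else 0)]
    refine le_trans (sub_le_sub_right (sub_le_sub_right (sub_le_sub_right
      (sub_le_sub_right hmean _) _) _) _) ?_
    simp only [← sum_sub_distrib]
    refine sum_le_sum fun i _ => sum_le_sum fun j _ => ?_
    rw [← mul_sub, ← mul_sub, ← mul_sub, ← mul_sub]
    refine mul_le_mul_of_nonneg_left ?_ (hww i j)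
    have m1 := q1 (c i) (c' j)
    have m2 := q2 (c i) (c' j)
    have m3 : 0 ≤ K * I.Msw (c i) (c' j) := by positivity
    have m4 : K * I.Msw (c i) (c' j) ≤ K * 1 := mul_le_mul_of_nonneg_left m2 hKp.le
    by_cases c1 : a ≤ y i + y' j ∧ y i ≤ b ∧ y' j ≤ b
    · rw [if_pos c1]
      have p1 : 0 ≤ K * (if y i < a1 then (1 : ℝ) else 0) := by split_ifs <;> simp
      have p2 : 0 ≤ K * (if y' j < a2 then (1 : ℝ) else 0) := by split_ifs <;> simp
      have p3 : 0 ≤ K * (if b < y i then (1 : ℝ) else 0) := by split_ifs <;> simp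
      have p4 : 0 ≤ K * (if b < y' j then (1 : ℝ) else 0) := by split_ifs <;> simp
      linarith
    · rw [if_neg c1]
      by_cases d1 : y i < a1
      · rw [if_pos d1]
        have p2 : 0 ≤ K * (if y' j < a2 then (1 : ℝ) else 0) := by split_ifs <;> simp
        have p3 : 0 ≤ K * (if b < y i then (1 : ℝ) else 0) := by split_ifs <;> simp
        have p4 : 0 ≤ K * (if b < y' j then (1 : ℝ) else 0) := by split_ifs <;> simp
        linarith
      by_cases d2 : y' j < a2
      · rw [if_pos d2, if_neg d1]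
        have p3 : 0 ≤ K * (if b < y i then (1 : ℝ) else 0) := by split_ifs <;> simp
        have p4 : 0 ≤ K * (if b < y' j then (1 : ℝ) else 0) := by split_ifs <;> simp
        linarith
      by_cases d3 : b < y i
      · rw [if_pos d3, if_neg d1, if_neg d2]
        have p4 : 0 ≤ K * (if b < y' j then (1 : ℝ) else 0) := by split_ifs <;> simp
        linarith
      by_cases d4 : b < y' j
      · rw [if_pos d4, if_neg d1, if_neg d2, if_neg d3]
        linarith
      · exfalso
        push Not at d1 d2 d3 d4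
        exact c1 ⟨by linarith, d3, d4⟩
  · have e0 : ∑ l, I.Tn n1 (fun k x => if k = l ∧ a1 ≤ x then (1 : ℝ) else 0) k1 0
        * I.Tn n2 (fun k x => if k = l ∧ a2 ≤ x then (1 : ℝ) else 0) k2 0 =
        ∑ i, ∑ j, w i * w' j *
          (if c i = c' j ∧ a1 ≤ y i ∧ a2 ≤ y' j then (1 : ℝ) else 0) := by
      simp only [hw, hw', sum_mul_sum]
      rw [sum_comm]
      refine sum_congr rfl fun i _ => ?_
      rw [sum_comm]
      refine sum_congr rfl fun j _ => ?_
      have : ∀ l, w i * (if c i = l ∧ a1 ≤ y i then (1 : ℝ) else 0) *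
          (w' j * (if c' j = l ∧ a2 ≤ y' j then (1 : ℝ) else 0)) =
          if c i = l then w i * w' j *
            (if c i = c' j ∧ a1 ≤ y i ∧ a2 ≤ y' j then (1 : ℝ) else 0) else 0 := by
        intro l
        by_cases d1 : c i = l
        · subst d1
          by_cases d2 : c' j = c i
          · rw [d2]
            by_cases d3 : a1 ≤ y i <;> by_cases d4 : a2 ≤ y' j <;> simp [d3, d4]
          · have d2' : ¬ c i = c' j := fun h => d2 h.symm
            simp [d2, d2']
        · simp [d1]
      simp only [this, sum_ite_eq, mem_univ, if_true]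
    rw [hid, e0, hw, hw', ← hone1, ← hone2]
    have e1 : ∀ (A : ι → κ → ℝ), K * ∑ i, ∑ j, w i * w' j * A i j =
        ∑ i, ∑ j, w i * w' j * (K * A i j) := by
      intro A
      rw [mul_sum]
      refine sum_congr rfl fun i _ => ?_
      rw [mul_sum]
      exact sum_congr rfl fun j _ => by ring
    rw [e1 (fun i _ => if b < y i then (1 : ℝ) else 0),
      e1 (fun _ j => if b < y' j then (1 : ℝ) else 0)]
    simp only [← sum_sub_distrib]
    refine sum_le_sum fun i _ => sum_le_sum fun j _ => ?_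
    rw [← mul_sub, ← mul_sub]
    refine mul_le_mul_of_nonneg_left ?_ (hww i j)
    have m1 := q1 (c i) (c' j)
    have m3 : 0 ≤ (if a ≤ y i + y' j ∧ y i ≤ b ∧ y' j ≤ b then K * I.Msw (c i) (c' j) else 0) := by
      split_ifs
      · positivity
      · exact le_rfl
    have p3 : 0 ≤ K * (if b < y i then (1 : ℝ) else 0) := by split_ifs <;> simp
    have p4 : 0 ≤ K * (if b < y' j then (1 : ℝ) else 0) := by split_ifs <;> simp
    by_cases d1 : c i = c' j ∧ a1 ≤ y i ∧ a2 ≤ y' j
    · rw [if_pos d1]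
      by_cases d3 : b < y i
      · rw [if_pos d3]
        linarith
      by_cases d4 : b < y' j
      · rw [if_pos d4]
        linarith
      · push Not at d3 d4
        rw [if_pos (⟨by linarith [d1.2.1, d1.2.2], d3, d4⟩ :
          a ≤ y i + y' j ∧ y i ≤ b ∧ y' j ≤ b)]
        have m5 : 1 ≤ K * I.Msw (c i) (c' j) := by
          rw [d1.1]
          unfold Msw
          rw [if_pos rfl]
          have : K * ((1 - I.al) * 1 + I.al / K) = K - I.al * (K - 1) := by
            field_simp
            ring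
          rw [this]
          nlinarith
        linarith
    · rw [if_neg d1]
      linarith

end KS.ID_helper53
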